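import Pool.Agent.helper42.CQ.SpecC

set_option autoImplicit false

namespace Pool.Agent.helper42.CQ

open Finset Pool.Agent.helper24.CG

theorem BET_pair {V : Type} [DecidableEq V] : ∀ e : Finset V, e.card = 2 → ∀ x ∈ e, ∀ y ∈ e,
    x ≠ y → e = {x, y} := by
  intro e he x hx y hy hxy
  symm
  apply eq_of_subset_of_card_le
  · intro z hz
    rw [mem_insert, mem_singleton] at hz
    rcases hz with rfl | rfl
    · exact hx
    · exact hy
  · rw [he, card_pair hxy]

/-- the pairs with one end in `Y` and one in `K \ Y` -/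
theorem BET_card {V : Type} [DecidableEq V] (K Y : Finset V) :
    ((Y ×ˢ (K \ Y)).image (fun p => ({p.1, p.2} : Finset V))).card = Y.card * (K \ Y).card := by
  rw [card_image_of_injOn, card_product]
  rintro ⟨x, y⟩ h1 ⟨x', y'⟩ h2 he
  rw [mem_coe, mem_product] at h1 h2
  simp only at h1 h2 he
  have hx : x ∈ ({x', y'} : Finset V) := by rw [← he]; simp
  have hy : y ∈ ({x', y'} : Finset V) := by rw [← he]; simp
  rw [mem_insert, mem_singleton] at hx hy
  have hx' : x = x' := by
    rcases hx with h | h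
    · exact h
    · exfalso
      rw [h] at h1
      exact (mem_sdiff.1 h2.2).2 h1.1
  have hy' : y = y' := by
    rcases hy with h | h
    · exfalso
      rw [h] at h1
      exact (mem_sdiff.1 h1.2).2 h2.1
    · exact h
  rw [hx', hy']

theorem BET (hREL : REL_stmt) (hWTA : WTA_stmt) : BET_stmt := by
  classical
  intro N m b q M s l a a₀ H K Y hm hb hM hH hKq hcl hGY hYK hgf hl hlq ha ha1 ha0 ha01 hYl hwt
  obtain ⟨_, _, _, _, _, _, _, hGs, _⟩ := hREL N M K hM
  have hw1 : ∀ e, 0 ≤ wt b m K H e ∧ wt b m K H e ≤ 1 := (hWTA N m b K H hm hb hH).1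
  set w : Finset (Fin N) → ℝ := fun e => wt b m K H e with hw
  have hnt : ∀ e, Disjoint e Y → ¬ tch M K s H e := by
    rintro e he ⟨H₂, E, H₁, hHe, _, z, hz, hzG⟩
    have h1 : H = (H₂ ++ [E]) ++ H₁ := by rw [hHe]; simp
    have h2 : z ∈ Gs M K s H := by
      rw [h1]
      exact hGs s _ _ hzG
    exact disjoint_left.1 he hz (hGY h2)
  set I : Finset (Finset (Fin N)) :=
    (Y ×ˢ (K \ Y)).image (fun p => ({p.1, p.2} : Finset (Fin N))) with hI
  have hIm : ∀ e ∈ I, ∃ x ∈ Y, ∃ u ∈ K \ Y, e = {x, u} := by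
    intro e he
    rw [hI, mem_image] at he
    obtain ⟨⟨x, u⟩, h1, h2⟩ := he
    rw [mem_product] at h1
    exact ⟨x, h1.1, u, h1.2, h2.symm⟩
  have hIK : ∀ e ∈ I, e ∈ ed K := by
    intro e he
    obtain ⟨x, hx, u, hu, rfl⟩ := hIm e he
    have hu' := mem_sdiff.1 hu
    have hxu : x ≠ u := by
      rintro rfl
      exact hu'.2 hx
    rw [ed, mem_powersetCard]
    refine ⟨?_, card_pair hxu⟩
    intro z hz
    rw [mem_insert, mem_singleton] at hz
    rcases hz with rfl | rfl
    · exact hYK hx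
    · exact hu'.1
  have hd1 : Disjoint I (ed (K \ Y)) := by
    rw [disjoint_left]
    intro e he he2
    obtain ⟨x, hx, u, hu, rfl⟩ := hIm e he
    rw [ed, mem_powersetCard] at he2
    exact (mem_sdiff.1 (he2.1 (by simp : x ∈ ({x, u} : Finset (Fin N))))).2 hx
  have hd2 : Disjoint (ed Y) (I ∪ ed (K \ Y)) := by
    rw [disjoint_left]
    intro e he he2
    rw [ed, mem_powersetCard] at he
    rw [mem_union] at he2
    rcases he2 with he2 | he2
    · obtain ⟨x, hx, u, hu, rfl⟩ := hIm e he2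
      exact (mem_sdiff.1 hu).2 (he.1 (by simp))
    · rw [ed, mem_powersetCard] at he2
      have hne : e.Nonempty := by
        rw [← card_pos, he.2]; norm_num
      obtain ⟨z, hz⟩ := hne
      exact (mem_sdiff.1 (he2.1 hz)).2 (he.1 hz)
  have hsplit : ed K = ed Y ∪ (I ∪ ed (K \ Y)) := by
    ext e
    constructor
    · intro he
      have he' := he
      rw [ed, mem_powersetCard] at he
      by_cases h1 : e ⊆ Y
      · exact mem_union_left _ (mem_powersetCard.2 ⟨h1, he.2⟩)
      · refine mem_union_right _ ?_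
        rw [not_subset] at h1
        obtain ⟨u, hu, huY⟩ := h1
        by_cases h2 : e ⊆ K \ Y
        · exact mem_union_right _ (mem_powersetCard.2 ⟨h2, he.2⟩)
        · refine mem_union_left _ ?_
          rw [not_subset] at h2
          obtain ⟨x, hx, hxY⟩ := h2
          have hx1 : x ∈ Y := by
            by_contra h3
            exact hxY (mem_sdiff.2 ⟨he.1 hx, h3⟩)
          have hxu : x ≠ u := by
            rintro rfl
            exact huY hx1
          rw [hI, mem_image]
          exact ⟨(x, u), mem_product.2 ⟨hx1, mem_sdiff.2 ⟨he.1 hu, huY⟩⟩,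
            (BET_pair e he.2 x hx u hu hxu).symm⟩
    · intro he
      rw [mem_union, mem_union] at he
      rcases he with he | he | he
      · rw [ed, mem_powersetCard] at he ⊢
        exact ⟨he.1.trans hYK, he.2⟩
      · exact hIK e he
      · rw [ed, mem_powersetCard] at he ⊢
        exact ⟨he.1.trans sdiff_subset, he.2⟩
  have hsum : ∑ e ∈ ed K, w e = ∑ e ∈ ed Y, w e + (∑ e ∈ I, w e + ∑ e ∈ ed (K \ Y), w e) := by
    rw [hsplit, sum_union hd2, sum_union hd1]
  have hgf' : ∑ e ∈ I, w e + ∑ e ∈ ed (K \ Y), w e ≤ ((K.card : ℝ) - (Y.card : ℝ)) * l := by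
    have h1 := hgf
    rw [gf, gf] at h1
    have h2 : ∑ e ∈ ed K, wt b m K H e = ∑ e ∈ ed K, w e := rfl
    have h3 : ∑ e ∈ ed Y, wt b m K H e = ∑ e ∈ ed Y, w e := rfl
    rw [h2, h3, hsum] at h1
    linarith
  have hcn : ((K \ Y).card : ℝ) = (K.card : ℝ) - (Y.card : ℝ) := by
    rw [card_sdiff_of_subset hYK, Nat.cast_sub (card_le_card hYK)]
  have hI1 : a₀ * ((Y.card : ℝ) * ((K \ Y).card : ℝ)) ≤ ∑ e ∈ I, w e := by
    have h1 : ∑ e ∈ I, a₀ ≤ ∑ e ∈ I, w e := sum_le_sum fun e he => hwt e (hIK e he)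
    rw [sum_const, nsmul_eq_mul, BET_card] at h1
    push_cast at h1
    linarith
  set S : ℝ := ∑ e ∈ (ed K).filter (fun e => ¬ tch M K s H e), (1 - wt b m K H e) with hS
  have hR2 : ((ed (K \ Y)).card : ℝ) - S ≤ ∑ e ∈ ed (K \ Y), w e := by
    have h1 : ∑ e ∈ ed (K \ Y), (1 - w e) ≤ S := by
      rw [hS]
      refine sum_le_sum_of_subset_of_nonneg ?_ ?_
      · intro e he
        rw [mem_filter]
        refine ⟨?_, ?_⟩
        · rw [hsplit]
          exact mem_union_right _ (mem_union_right _ he)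
        · apply hnt
          rw [ed, mem_powersetCard] at he
          rw [disjoint_left]
          intro z hz
          exact (mem_sdiff.1 (he.1 hz)).2
      · intro e _ _
        have := (hw1 e).2
        linarith
    rw [sum_sub_distrib, sum_const, nsmul_eq_mul, mul_one] at h1
    linarith
  have hR2c : ((ed (K \ Y)).card : ℝ) =
      ((K \ Y).card : ℝ) * (((K \ Y).card : ℝ) - 1) / 2 := by
    rw [ed, card_powersetCard, Nat.cast_choose_two]
  have hT : (((ed K).filter (tch M K s H)).card : ℝ) ≤ (Y.card : ℝ) * (q : ℝ) := by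
    have h1 : (ed K).filter (tch M K s H) ⊆
        (Y ×ˢ K).image (fun p => ({p.1, p.2} : Finset (Fin N))) := by
      intro e he
      rw [mem_filter] at he
      obtain ⟨he1, he2⟩ := he
      have h2 : ¬ Disjoint e Y := fun h => hnt e h he2
      rw [not_disjoint_iff] at h2
      obtain ⟨x, hx, hxY⟩ := h2
      rw [ed, mem_powersetCard] at he1
      have h3 : ∃ u ∈ e, x ≠ u := by
        obtain ⟨y1, y2, hne, rfl⟩ := card_eq_two.1 he1.2
        rw [mem_insert, mem_singleton] at hx
        rcases hx with rfl | rfl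
        · exact ⟨y2, by simp, hne⟩
        · exact ⟨y1, by simp, Ne.symm hne⟩
      obtain ⟨u, hu, hxu⟩ := h3
      rw [mem_image]
      exact ⟨(x, u), mem_product.2 ⟨hxY, he1.1 hu⟩, (BET_pair e he1.2 x hx u hu hxu).symm⟩
    have h2 := (card_le_card h1).trans card_image_le
    rw [card_product, hKq] at h2
    exact_mod_cast h2
  -- real numbers
  rw [hcn, hKq] at hI1 hR2c
  rw [hKq] at hgf'
  set y : ℝ := (Y.card : ℝ) with hy
  have hy0 : 0 ≤ y := Nat.cast_nonneg _
  have hyq : y ≤ (q : ℝ) := by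
    rw [hy, ← hKq]
    exact_mod_cast card_le_card hYK
  have hmain : ((q : ℝ) - y) * y * (a₀ - 1 / 2) ≤ S + ((q : ℝ) - y) / 2 := by
    have h1 : ((q : ℝ) - y) * l ≤ ((q : ℝ) - y) * ((q : ℝ) / 2) :=
      mul_le_mul_of_nonneg_left hlq (by linarith)
    nlinarith
  have ha2 : 0 < 1 - 1 / (2 * a) := by
    have : 1 / (2 * a) < 1 := by
      rw [div_lt_one (by linarith)]
      linarith
    linarith
  have hn : (q : ℝ) * (1 - 1 / (2 * a)) ≤ (q : ℝ) - y := by
    have h1 : l / a ≤ (q : ℝ) / 2 / a := by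
      apply div_le_div_of_nonneg_right hlq
      linarith
    have h2 : (q : ℝ) / 2 / a = (q : ℝ) * (1 / (2 * a)) := by
      rw [div_div, mul_one_div]
    linarith
  have ha3 : 0 < a₀ - 1 / 2 := by linarith
  calc (((ed K).filter (tch M K s H)).card : ℝ) * ((1 - 1 / (2 * a)) * (a₀ - 1 / 2))
      ≤ y * (q : ℝ) * ((1 - 1 / (2 * a)) * (a₀ - 1 / 2)) :=
        mul_le_mul_of_nonneg_right hT (mul_nonneg ha2.le ha3.le)
    _ = ((q : ℝ) * (1 - 1 / (2 * a))) * (y * (a₀ - 1 / 2)) := by ring
    _ ≤ ((q : ℝ) - y) * (y * (a₀ - 1 / 2)) :=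
        mul_le_mul_of_nonneg_right hn (mul_nonneg hy0 ha3.le)
    _ ≤ S + ((q : ℝ) - y) / 2 := by linarith
    _ ≤ S + (q : ℝ) / 2 := by linarith

end Pool.Agent.helper42.CQ
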