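import Pool.Agent.helper42.CQ.SpecC

set_option autoImplicit false

namespace Pool.Agent.helper42.CQ

open Finset Pool.Agent.helper24.CG

/-- the iterated kernel -/
noncomputable def KER_T {α : Type} [Fintype α] [DecidableEq α] (x₀ : α) (κ : α → α → ℝ) :
    ℕ → α → ℝ
  | 0 => fun x => if x = x₀ then 1 else 0
  | n + 1 => fun y => ∑ x, KER_T x₀ κ n x * κ x y

theorem KER : KER_stmt := by
  intro α _ _ x₀ κ hκ hs
  have h0 : ∀ n x, 0 ≤ KER_T x₀ κ n x := by
    intro n
    induction n with
    | zero =>
      intro x
      show (0 : ℝ) ≤ if x = x₀ then 1 else 0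
      split_ifs
      · exact zero_le_one
      · exact le_refl _
    | succ n ih =>
      intro y
      rw [KER_T]
      exact sum_nonneg fun x _ => mul_nonneg (ih x) (hκ x y)
  refine ⟨KER_T x₀ κ, h0, ?_, ?_, ?_⟩
  · intro n
    induction n with
    | zero =>
      simp only [KER_T]
      rw [sum_ite_eq' univ x₀]
      simp
    | succ n ih =>
      simp only [KER_T]
      rw [sum_comm]
      refine le_trans ?_ ih
      refine sum_le_sum ?_
      intro x _
      rw [← mul_sum]
      exact mul_le_of_le_one_right (h0 n x) (hs x)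
  · show (1 : ℝ) ≤ if x₀ = x₀ then 1 else 0
    rw [if_pos rfl]
  · intro n x y
    rw [KER_T]
    exact single_le_sum (f := fun x => KER_T x₀ κ n x * κ x y)
      (fun x _ => mul_nonneg (h0 n x) (hκ x y)) (mem_univ x)

end Pool.Agent.helper42.CQ
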