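import Pool.Agent.helper42.CQ.SpecC

set_option autoImplicit false

namespace Pool.Agent.helper42.CQ

open Finset Pool.Agent.helper24.CG

theorem L5A_pair {V : Type} [DecidableEq V] (G : Finset V) (g : Finset V → ℝ) :
    ∑ v ∈ G, ∑ u ∈ G.erase v, g {v, u} = 2 * ∑ e ∈ G.powersetCard 2, g e := by
  have h1 : ∀ v ∈ G, ∑ u ∈ G.erase v, g {v, u} =
      ∑ e ∈ (G.powersetCard 2).filter (fun e => v ∈ e), g e := by
    intro v hv
    refine Finset.sum_bij (fun u _ => {v, u}) ?_ ?_ ?_ ?_
    · intro u hu
      rw [mem_erase] at hu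
      rw [mem_filter, mem_powersetCard]
      refine ⟨⟨?_, card_pair (Ne.symm hu.1)⟩, by simp⟩
      intro x hx
      rw [mem_insert, mem_singleton] at hx
      rcases hx with rfl | rfl
      · exact hv
      · exact hu.2
    · intro u hu u' hu' he
      rw [mem_erase] at hu hu'
      have h2 : u ∈ ({v, u'} : Finset V) := by rw [← he]; simp
      rw [mem_insert, mem_singleton] at h2
      rcases h2 with h2 | h2
      · exact absurd h2 hu.1
      · exact h2
    · intro e he
      rw [mem_filter, mem_powersetCard] at he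
      obtain ⟨⟨hs, hc⟩, hve⟩ := he
      obtain ⟨x, y, hxy, rfl⟩ := card_eq_two.1 hc
      rw [mem_insert, mem_singleton] at hve
      rcases hve with rfl | rfl
      · exact ⟨y, mem_erase.2 ⟨Ne.symm hxy, hs (by simp)⟩, rfl⟩
      · exact ⟨x, mem_erase.2 ⟨hxy, hs (by simp)⟩, pair_comm _ _⟩
    · intro u hu
      rfl
  rw [sum_congr rfl h1]
  have h2 : ∑ v ∈ G, ∑ e ∈ (G.powersetCard 2).filter (fun e => v ∈ e), g e =
      ∑ e ∈ G.powersetCard 2, ∑ v ∈ e, g e := by
    refine sum_comm' ?_
    intro v e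
    rw [mem_filter, mem_powersetCard]
    constructor
    · rintro ⟨hv, ⟨hs, hc⟩, hve⟩
      exact ⟨hve, hs, hc⟩
    · rintro ⟨hve, hs, hc⟩
      exact ⟨hs hve, ⟨hs, hc⟩, hve⟩
  rw [h2, mul_sum]
  refine sum_congr rfl ?_
  intro e he
  rw [mem_powersetCard] at he
  rw [sum_const, he.2, nsmul_eq_mul]
  norm_num

theorem L5A_card {V : Type} [DecidableEq V] (G : Finset V) :
    ((G.powersetCard 2).card : ℝ) ≤ (G.card : ℝ) ^ 2 / 2 := by
  rw [card_powersetCard, Nat.cast_choose_two]
  have h : (0 : ℝ) ≤ (G.card : ℝ) := Nat.cast_nonneg _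
  nlinarith

theorem L5A : L5A_stmt := by
  intro V _ G w C l a hw hl ha ha1 hG
  have hd0 : ∀ e, w e ≤ a + max 0 (w e - a) := by
    intro e
    have := le_max_right 0 (w e - a)
    linarith
  have hS : ∀ f : Finset V → ℝ, ∑ e ∈ G.powersetCard 2, (if e ∈ C then f e else 0) =
      ∑ e ∈ G.powersetCard 2 ∩ C, f e := by
    intro f
    rw [← sum_filter, filter_mem_eq_inter]
  constructor
  · have hW := L5A_pair G (fun e => if e ∈ C then w e else 0)
    have hD := L5A_pair G (fun e => if e ∈ C then max 0 (w e - a) else 0)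
    rw [hS] at hW hD
    have hv : ∀ v ∈ G, l - min (∑ u ∈ G.erase v, if {v, u} ∈ C then w {v, u} else 0) l / 2 ≤
        l - ((∑ u ∈ G.erase v, if {v, u} ∈ C then w {v, u} else 0) -
          ∑ u ∈ G.erase v, if {v, u} ∈ C then max 0 (w {v, u} - a) else 0) / 2 := by
      intro v hv
      have h0 : 0 ≤ ∑ u ∈ G.erase v, if {v, u} ∈ C then max 0 (w {v, u} - a) else 0 := by
        refine sum_nonneg ?_
        intro u _
        split_ifs
        · exact le_max_left _ _
        · exact le_refl _
      have h1 : (∑ u ∈ G.erase v, if {v, u} ∈ C then w {v, u} else 0) ≤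
          a * (G.card : ℝ) +
            ∑ u ∈ G.erase v, if {v, u} ∈ C then max 0 (w {v, u} - a) else 0 := by
        have h2 : (∑ u ∈ G.erase v, if {v, u} ∈ C then w {v, u} else 0) ≤
            ∑ u ∈ G.erase v, (a + if {v, u} ∈ C then max 0 (w {v, u} - a) else 0) := by
          refine sum_le_sum ?_
          intro u _
          split_ifs
          · exact hd0 _
          · linarith
        rw [sum_add_distrib, sum_const, nsmul_eq_mul] at h2
        have h3 : ((G.erase v).card : ℝ) ≤ (G.card : ℝ) := by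
          exact_mod_cast card_le_card (erase_subset _ _)
        nlinarith
      have h4 : (∑ u ∈ G.erase v, if {v, u} ∈ C then w {v, u} else 0) -
          (∑ u ∈ G.erase v, if {v, u} ∈ C then max 0 (w {v, u} - a) else 0) ≤
          min (∑ u ∈ G.erase v, if {v, u} ∈ C then w {v, u} else 0) l := by
        refine le_min ?_ ?_
        · linarith
        · linarith
      linarith
    refine (sum_le_sum hv).trans ?_
    rw [sum_sub_distrib, sum_const, nsmul_eq_mul, ← sum_div, sum_sub_distrib]
    rw [hW, hD]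
    linarith
  · have h1 : ∑ e ∈ G.powersetCard 2 ∩ C, w e ≤
        ∑ e ∈ G.powersetCard 2 ∩ C, (a + max 0 (w e - a)) := sum_le_sum fun e _ => hd0 e
    rw [sum_add_distrib, sum_const, nsmul_eq_mul] at h1
    have h2 : ((G.powersetCard 2 ∩ C).card : ℝ) ≤ (G.card : ℝ) ^ 2 / 2 := by
      refine le_trans ?_ (L5A_card G)
      exact_mod_cast card_le_card inter_subset_left
    nlinarith

end Pool.Agent.helper42.CQ
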