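import Pool.Agent.helper42.CQ.SpecC

set_option autoImplicit false

namespace Pool.Agent.helper42.CQ

open Finset Pool.Agent.helper24.CG

theorem L5B : L5B_stmt := by
  intro V _ G A B w C a hGA hAB hw ha
  have hd0 : ∀ e, w e ≤ a + max 0 (w e - a) := by
    intro e
    have := le_max_right 0 (w e - a)
    linarith
  set S : Finset (Finset V) := (B.powersetCard 2 \ A.powersetCard 2) ∩ C with hS
  have hmem : ∀ e ∈ S, e ⊆ B ∧ e.card = 2 ∧ ∃ y ∈ e, y ∈ B \ A := by
    intro e he
    rw [hS, mem_inter, mem_sdiff, mem_powersetCard, mem_powersetCard] at he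
    obtain ⟨⟨⟨h1, h2⟩, h3⟩, _⟩ := he
    refine ⟨h1, h2, ?_⟩
    by_contra h4
    push Not at h4
    apply h3
    refine ⟨?_, h2⟩
    intro y hy
    by_contra h5
    exact h4 y hy (mem_sdiff.2 ⟨h1 hy, h5⟩)
  have hpair : ∀ e : Finset V, e.card = 2 → ∀ x ∈ e, ∀ y ∈ e, x ≠ y → e = {x, y} := by
    intro e he x hx y hy hxy
    symm
    apply eq_of_subset_of_card_le
    · intro z hz
      rw [mem_insert, mem_singleton] at hz
      rcases hz with rfl | rfl
      · exact hx
      · exact hy
    · rw [he, card_pair hxy]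
  have hcard2 : ((S.filter (fun e => ¬ Disjoint e G)).card : ℝ) ≤
      ((B \ A).card : ℝ) * (G.card : ℝ) := by
    have h1 : S.filter (fun e => ¬ Disjoint e G) ⊆
        ((B \ A) ×ˢ G).image (fun p => ({p.1, p.2} : Finset V)) := by
      intro e he
      rw [mem_filter] at he
      obtain ⟨he1, he2⟩ := he
      obtain ⟨h3, h4, y, hy, hyA⟩ := hmem e he1
      rw [not_disjoint_iff] at he2
      obtain ⟨x, hx, hxG⟩ := he2
      have hxy : y ≠ x := by
        rintro rfl
        exact (mem_sdiff.1 hyA).2 (hGA hxG)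
      rw [mem_image]
      exact ⟨(y, x), mem_product.2 ⟨hyA, hxG⟩, (hpair e h4 y hy x hx hxy).symm⟩
    have h2 := (card_le_card h1).trans card_image_le
    rw [card_product] at h2
    exact_mod_cast h2
  constructor
  · have h1 : ∑ e ∈ S, w e = ∑ e ∈ S.filter (fun e => Disjoint e G), w e +
        ∑ e ∈ S.filter (fun e => ¬ Disjoint e G), w e :=
      (sum_filter_add_sum_filter_not S (fun e => Disjoint e G) w).symm
    have h2 : ∑ e ∈ S.filter (fun e => Disjoint e G), w e ≤
        ((S.filter (fun e => Disjoint e G)).card : ℝ) := by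
      have h3 : ∑ e ∈ S.filter (fun e => Disjoint e G), w e ≤
          ∑ e ∈ S.filter (fun e => Disjoint e G), (1 : ℝ) :=
        sum_le_sum fun e _ => (hw e).2
      rw [sum_const, nsmul_eq_mul, mul_one] at h3
      exact h3
    have h3 : ∑ e ∈ S.filter (fun e => ¬ Disjoint e G), w e ≤
        ∑ e ∈ S.filter (fun e => ¬ Disjoint e G), (a + max 0 (w e - a)) :=
      sum_le_sum fun e _ => hd0 e
    rw [sum_add_distrib, sum_const, nsmul_eq_mul] at h3
    have h4 : ((S.filter (fun e => ¬ Disjoint e G)).card : ℝ) * a ≤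
      ((B \ A).card : ℝ) * (G.card : ℝ) * a := mul_le_mul_of_nonneg_right hcard2 ha.le
    rw [h1]
    linarith
  · have h1 : S.filter (fun e => Disjoint e G) ⊆
        ((A \ G) ×ˢ (B \ A)).image (fun p => ({p.1, p.2} : Finset V)) ∪
          (B \ A).powersetCard 2 := by
      intro e he
      rw [mem_filter] at he
      obtain ⟨he1, he2⟩ := he
      obtain ⟨h3, h4, y, hy, hyA⟩ := hmem e he1
      rw [mem_union]
      by_cases h5 : e ⊆ B \ A
      · right
        exact mem_powersetCard.2 ⟨h5, h4⟩
      · left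
        rw [not_subset] at h5
        obtain ⟨x, hx, hxA⟩ := h5
        have hxy : x ≠ y := by
          rintro rfl
          exact hxA hyA
        have hx1 : x ∈ A := by
          by_contra h6
          exact hxA (mem_sdiff.2 ⟨h3 hx, h6⟩)
        have hx2 : x ∉ G := disjoint_left.1 he2 hx
        rw [mem_image]
        exact ⟨(x, y), mem_product.2 ⟨mem_sdiff.2 ⟨hx1, hx2⟩, hyA⟩,
          (hpair e h4 x hx y hy hxy).symm⟩
    have h2 := ((card_le_card h1).trans (card_union_le _ _)).trans
      (Nat.add_le_add_right card_image_le _)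
    rw [card_product, card_powersetCard] at h2
    have h3 : ((S.filter (fun e => Disjoint e G)).card : ℝ) ≤
        ((A \ G).card : ℝ) * ((B \ A).card : ℝ) + (((B \ A).card.choose 2 : ℕ) : ℝ) := by
      exact_mod_cast h2
    rw [Nat.cast_choose_two] at h3
    have h4 : (0 : ℝ) ≤ ((B \ A).card : ℝ) := Nat.cast_nonneg _
    nlinarith

end Pool.Agent.helper42.CQ
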