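import Pool.Agent.helper42.CQ.SpecC

set_option autoImplicit false

namespace Pool.Agent.helper42.CQ

open Finset Pool.Agent.helper24.CG

theorem NU1_bd (m : ℕ) (hm : 1 ≤ m) : 6931 / 10000 ≤ aa m 1 ∧ aa m 1 ≤ 1 := by
  have hmR : (0 : ℝ) < (m : ℝ) := Nat.cast_pos.2 hm
  have h1m : (0 : ℝ) < 1 / (m : ℝ) := by positivity
  have hlog2 := Real.log_two_gt_d9
  have hup : (m : ℝ) * Real.log (1 + 1 / (m : ℝ)) ≤ 1 := by
    have h1 := Real.log_le_sub_one_of_pos (show (0 : ℝ) < 1 + 1 / (m : ℝ) by linarith)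
    have h2 : Real.log (1 + 1 / (m : ℝ)) ≤ 1 / (m : ℝ) := by linarith
    calc (m : ℝ) * Real.log (1 + 1 / (m : ℝ)) ≤ (m : ℝ) * (1 / (m : ℝ)) :=
          mul_le_mul_of_nonneg_left h2 hmR.le
      _ = 1 := by field_simp
  have hlow : Real.log 2 ≤ (m : ℝ) * Real.log (1 + 1 / (m : ℝ)) := by
    have h1 := one_add_mul_le_pow (show (-2 : ℝ) ≤ 1 / (m : ℝ) by linarith) m
    have h2 : (m : ℝ) * (1 / (m : ℝ)) = 1 := by field_simp
    rw [h2] at h1
    rw [← Real.log_pow]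
    apply Real.log_le_log (by norm_num)
    linarith
  have hpos : 0 < (m : ℝ) * Real.log (1 + 1 / (m : ℝ)) := by linarith
  have e : aa m 1 = Real.log 2 / ((m : ℝ) * Real.log (1 + 1 / (m : ℝ))) := by
    rw [aa, Nat.cast_one]
    norm_num
  rw [e]
  constructor
  · rw [le_div_iff₀ hpos]
    nlinarith
  · rw [div_le_one hpos]
    exact hlow

theorem NU1 : NU1_stmt := by
  intro m hm
  have hm1 : 1 ≤ m := le_trans (by norm_num) hm
  obtain ⟨h1, h2⟩ := NU1_bd m hm1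
  have hmR : (10 : ℝ) ^ 4 ≤ (m : ℝ) := by exact_mod_cast hm
  set a : ℝ := aa m 1 with ha
  have ha0 : 0 < a := by linarith
  refine ⟨by linarith, h2, by nlinarith, by nlinarith, ?_, ?_, by linarith⟩
  · have e : (1 - 1 / (2 * a)) * (a - 1 / 2) = (2 * a - 1) ^ 2 / (4 * a) := by
      field_simp
      ring
    rw [e, le_div_iff₀ (by linarith)]
    nlinarith
  · have h3 : 1 * ((14 : ℝ) - 1) ^ 2 / (2 * (m : ℝ)) ≤ 169 / 20000 := by
      rw [div_le_div_iff₀ (by linarith) (by norm_num)]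
      nlinarith
    have h4 : (1 - a) / (13 / 500) + 1 ≤ 12.81 := by
      have : (1 - a) / (13 / 500) ≤ 11.81 := by
        rw [div_le_iff₀ (by norm_num)]
        linarith
      linarith
    have h5 : 0 ≤ 1 * ((14 : ℝ) - 1) ^ 2 / (2 * (m : ℝ)) := by positivity
    calc ((1 - a) / (13 / 500) + 1) * (1 * ((14 : ℝ) - 1) ^ 2 / (2 * (m : ℝ)))
        ≤ 12.81 * (1 * ((14 : ℝ) - 1) ^ 2 / (2 * (m : ℝ))) :=
          mul_le_mul_of_nonneg_right h4 h5
      _ ≤ 12.81 * (169 / 20000) := mul_le_mul_of_nonneg_left h3 (by norm_num)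
      _ ≤ 1 / 8 := by norm_num

end Pool.Agent.helper42.CQ
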